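import Mathlib

/-! Augmented ordered chains on lists, acyclic carriers, Mayer-Vietoris. -/

namespace Pool.Agent.Lib.RipsHom

open Finsupp List

variable (R : Type) [CommRing R] {V W : Type}

/-- augmented ordered chains, all degrees together -/
abbrev Ch (R : Type) [CommRing R] (V : Type) := List V →₀ R

noncomputable def cone (a : V) : Ch R V →ₗ[R] Ch R V := Finsupp.lmapDomain R R (List.cons a)

noncomputable def bdL : List V → Ch R V
  | [] => 0
  | a :: l => single l 1 - cone R a (bdL l)

noncomputable def bd : Ch R V →ₗ[R] Ch R V := Finsupp.linearCombination R (bdL R)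

/-- chains supported on a set of lists -/
def C (K : Set (List V)) : Submodule R (Ch R V) := Finsupp.supported R R K

/-- closed under sublists -/
def Down (K : Set (List V)) : Prop := ∀ l ∈ K, ∀ m, m <+ l → m ∈ K

/-- every cycle of `K` bounds in `L` -/
def Bd (K L : Set (List V)) : Prop := ∀ c ∈ C R K, bd R c = 0 → ∃ b ∈ C R L, bd R b = c

variable {R}

@[simp] theorem cone_single (a : V) (l : List V) (r : R) :
    cone R a (single l r) = single (a :: l) r := by
  simp [cone]

@[simp] theorem bd_single (l : List V) (r : R) : bd R (single l r) = r • bdL R l := by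
  simp [bd]

theorem bd_cone (a : V) (c : Ch R V) : bd R (cone R a c) = c - cone R a (bd R c) := by
  induction c using Finsupp.induction_linear with
  | zero => simp
  | add f g hf hg => simp only [map_add, hf, hg]; abel
  | single l r => simp [bdL, smul_sub]

theorem bd_bdL (l : List V) : bd R (bdL R l) = 0 := by
  induction l with
  | nil => simp [bdL]
  | cons a l ih => simp [bdL, bd_cone, ih]

theorem bd_bd (c : Ch R V) : bd R (bd R c) = 0 := by
  induction c using Finsupp.induction_linear with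
  | zero => simp
  | add f g hf hg => simp [hf, hg]
  | single l r => simp [bd_bdL]

theorem single_mem {K : Set (List V)} {l : List V} (h : l ∈ K) (r : R) : single l r ∈ C R K :=
  Finsupp.single_mem_supported R r h

theorem C_mono {K L : Set (List V)} (h : K ⊆ L) : C R K ≤ C R L := Finsupp.supported_mono h

theorem C_induction {K : Set (List V)} {p : Ch R V → Prop} (h0 : p 0)
    (hadd : ∀ x y, p x → p y → p (x + y)) (hs : ∀ l ∈ K, ∀ r : R, p (single l r)) :
    ∀ c ∈ C R K, p c := by
  intro c hc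
  have : c = ∑ l ∈ c.support, single l (c l) := (Finsupp.sum_single c).symm
  rw [this]
  refine Finset.sum_induction _ p (fun x y => hadd x y) h0 ?_
  intro l hl
  exact hs l (hc hl) _

theorem map_mem {K : Set (List V)} {S : Submodule R (Ch R W)} (F : Ch R V →ₗ[R] Ch R W)
    (h : ∀ l ∈ K, F (single l 1) ∈ S) : ∀ c ∈ C R K, F c ∈ S := by
  refine C_induction (by simp) (fun x y hx hy => by rw [map_add]; exact S.add_mem hx hy) ?_
  intro l hl r
  have : single l r = r • single l (1 : R) := by simp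
  rw [this, map_smul]
  exact S.smul_mem _ (h l hl)

theorem map_eq {K : Set (List V)} (F G : Ch R V →ₗ[R] Ch R W)
    (h : ∀ l ∈ K, F (single l 1) = G (single l 1)) : ∀ c ∈ C R K, F c = G c := by
  refine C_induction (by simp) (fun x y hx hy => by rw [map_add, map_add, hx, hy]) ?_
  intro l hl r
  have : single l r = r • single l (1 : R) := by simp
  rw [this, map_smul, map_smul, h l hl]

theorem bdL_mem (l : List V) : bdL R l ∈ C R {m | m <+ l ∧ m.length + 1 = l.length} := by
  induction l with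
  | nil => simp [bdL]
  | cons a l ih =>
    refine Submodule.sub_mem _ (single_mem (And.intro (sublist_cons_self a l) (by simp)) _) ?_
    refine map_mem (cone R a) ?_ _ ih
    intro m hm
    rw [cone_single]
    exact single_mem (And.intro (hm.1.cons_cons a) (by simp [hm.2])) _

theorem Down.bd_mem {K : Set (List V)} (hK : Down K) : ∀ c ∈ C R K, bd R c ∈ C R K := by
  refine map_mem _ ?_
  intro l hl
  rw [bd_single, one_smul]
  exact C_mono (fun m hm => hK l hl m hm.1) (bdL_mem l)

theorem Bd.mono {K K' L L' : Set (List V)} (h : Bd R K L) (hK : K' ⊆ K) (hL : L ⊆ L') :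
    Bd R K' L' := by
  intro c hc hz
  obtain ⟨b, hb, e⟩ := h c (C_mono hK hc) hz
  exact ⟨b, C_mono hL hb, e⟩

/-- cones are acyclic -/
theorem bd_of_cone {K L : Set (List V)} (a : V) (h : ∀ l ∈ K, a :: l ∈ L) : Bd R K L := by
  intro c hc hz
  refine ⟨cone R a c, map_mem _ ?_ c hc, by rw [bd_cone, hz]; simp⟩
  intro l hl
  rw [cone_single]
  exact single_mem (h l hl) _

open Classical in
/-- the acyclic carrier lemma -/
theorem carrier {K : Set (List V)} (hK : Down K) (Γ : List V → Set (List W))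
    (hmono : ∀ l ∈ K, ∀ m, m <+ l → Γ m ⊆ Γ l)
    (hac : ∀ l ∈ K, l ≠ [] → Bd R (Γ l) (Γ l))
    (F : Ch R V →ₗ[R] Ch R W) (s : R) (hF : ∀ l ∈ K, F (single l 1) ∈ C R (Γ l))
    (hFd : ∀ l ∈ K, bd R (F (single l 1)) + s • F (bdL R l) = 0)
    (b0 : Ch R W) (hb0 : b0 ∈ C R (Γ [])) (hb0' : bd R b0 = F (single [] 1)) :
    ∃ D : Ch R V →ₗ[R] Ch R W, D (single [] 1) = b0 ∧ ∀ l ∈ K, D (single l 1) ∈ C R (Γ l) ∧
      bd R (D (single l 1)) = F (single l 1) + s • D (bdL R l) := by
  let step : (List V → Ch R W) → List V → Ch R W := fun D l =>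
    if h : ∃ b ∈ C R (Γ l), bd R b = F (single l 1) + s • linearCombination R D (bdL R l)
    then h.choose else 0
  let Dn : ℕ → List V → Ch R W := fun n => Nat.rec (fun _ => b0) (fun _ D => step D) n
  let D : List V → Ch R W := fun l => Dn l.length l
  have hD : ∀ (l : List V) n, l.length = n + 1 →
      linearCombination R D (bdL R l) = linearCombination R (Dn n) (bdL R l) := by
    intro l n hl
    refine map_eq _ _ ?_ _ (bdL_mem l)
    intro m hm
    have : m.length = n := by have := hm.2; omega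
    simp [D, this]
  have key : ∀ n, ∀ l ∈ K, l.length = n → D l ∈ C R (Γ l) ∧
      bd R (D l) = F (single l 1) + s • linearCombination R D (bdL R l) := by
    intro n
    induction n with
    | zero =>
      intro l _ hl
      obtain rfl := List.length_eq_zero_iff.mp hl
      exact ⟨hb0, by
        have : D [] = b0 := rfl
        simpa [bdL, this] using hb0'⟩
    | succ n ih =>
      intro l hlK hl
      have hne : l ≠ [] := by rintro rfl; simp at hl
      have hmem : F (single l 1) + s • linearCombination R D (bdL R l) ∈ C R (Γ l) := by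
        refine Submodule.add_mem _ (hF l hlK) (Submodule.smul_mem _ _ ?_)
        refine map_mem _ ?_ _ (bdL_mem l)
        intro m hm
        have hm2 : m.length = n := by have := hm.2; omega
        rw [linearCombination_single, one_smul]
        exact C_mono (hmono l hlK m hm.1) (ih m (hK l hlK m hm.1) hm2).1
      have h1 : bd R (linearCombination R D (bdL R l)) =
          F (bdL R l) + s • linearCombination R D (bd R (bdL R l)) := by
        have := map_eq (K := {m | m <+ l ∧ m.length + 1 = l.length})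
          ((bd R).comp (linearCombination R D)) (F + s • (linearCombination R D).comp (bd R)) (by
            intro m hm
            have hm2 : m.length = n := by have := hm.2; omega
            simpa using (ih m (hK l hlK m hm.1) hm2).2) _ (bdL_mem l)
        simpa using this
      have hz : bd R (F (single l 1) + s • linearCombination R D (bdL R l)) = 0 := by
        rw [map_add, map_smul, h1, bd_bdL]
        simpa using hFd l hlK
      have hex := hac l hlK hne _ hmem hz
      rw [hD l n hl] at hex ⊢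
      have : D l = hex.choose := by
        simp only [D, hl, Dn, step]
        rw [dif_pos hex]
      rw [this]
      exact hex.choose_spec
  refine ⟨linearCombination R D, by simp [D, Dn], fun l hl => ?_⟩
  simpa using key _ l hl rfl

/-- chain maps carried by an acyclic carrier exist -/
theorem exists_chain_map {K : Set (List V)} (hK : Down K) (Γ : List V → Set (List W))
    (hmono : ∀ l ∈ K, ∀ m, m <+ l → Γ m ⊆ Γ l)
    (hac : ∀ l ∈ K, l ≠ [] → Bd R (Γ l) (Γ l)) (h0 : [] ∈ Γ []) :
    ∃ D : Ch R V →ₗ[R] Ch R W, D (single [] 1) = single [] 1 ∧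
      (∀ l ∈ K, D (single l 1) ∈ C R (Γ l)) ∧ ∀ c ∈ C R K, bd R (D c) = D (bd R c) := by
  obtain ⟨D, h1, h2⟩ := carrier hK Γ hmono hac (0 : Ch R V →ₗ[R] Ch R W) 1 (by simp) (by simp)
    (single [] 1) (single_mem h0 _) (by simp [bdL])
  refine ⟨D, h1, fun l hl => (h2 l hl).1, ?_⟩
  intro c hc
  exact map_eq ((bd R).comp D) (D.comp (bd R)) (fun l hl => by simpa using (h2 l hl).2) c hc

/-- a chain map carried by an acyclic carrier and killing the empty list sends cycles to
boundaries -/
theorem exists_bd_of_carrier {K : Set (List V)} (hK : Down K) (Γ : List V → Set (List W))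
    (hmono : ∀ l ∈ K, ∀ m, m <+ l → Γ m ⊆ Γ l)
    (hac : ∀ l ∈ K, l ≠ [] → Bd R (Γ l) (Γ l)) {L : Set (List W)} (hL : ∀ l ∈ K, Γ l ⊆ L)
    (F : Ch R V →ₗ[R] Ch R W) (hF : ∀ l ∈ K, F (single l 1) ∈ C R (Γ l))
    (hFd : ∀ c ∈ C R K, bd R (F c) = F (bd R c)) (h0 : F (single [] 1) = 0) :
    ∀ c ∈ C R K, bd R c = 0 → ∃ b ∈ C R L, bd R b = F c := by
  obtain ⟨D, -, h2⟩ := carrier hK Γ hmono hac F (-1) hF
    (fun l hl => by rw [hFd _ (single_mem hl _)]; simp) 0 (Submodule.zero_mem _) (by simp [h0])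
  intro c hc hz
  refine ⟨D c, map_mem _ (fun l hl => C_mono (hL l hl) (h2 l hl).1) c hc, ?_⟩
  have := map_eq ((bd R).comp D) (F - D.comp (bd R))
    (fun l hl => by simpa [sub_eq_add_neg] using (h2 l hl).2) c hc
  simpa [hz] using this

/-- comparison through acyclic carriers -/
theorem Bd.of_carriers {K K' : Set (List V)} {L L' : Set (List W)} (hK : Down K) (hL' : Down L')
    (hLL : L ⊆ L') (Γ : List V → Set (List W)) (Γ' : List W → Set (List V))
    (Θ : List V → Set (List V))
    (hm : ∀ l ∈ K, ∀ m, m <+ l → Γ m ⊆ Γ l) (ha : ∀ l ∈ K, l ≠ [] → Bd R (Γ l) (Γ l))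
    (h0 : [] ∈ Γ []) (hs : ∀ l ∈ K, Γ l ⊆ L)
    (hm' : ∀ l ∈ L', ∀ m, m <+ l → Γ' m ⊆ Γ' l) (ha' : ∀ l ∈ L', l ≠ [] → Bd R (Γ' l) (Γ' l))
    (h0' : [] ∈ Γ' []) (hs' : ∀ l ∈ L', Γ' l ⊆ K')
    (hmt : ∀ l ∈ K, ∀ m, m <+ l → Θ m ⊆ Θ l) (hat : ∀ l ∈ K, l ≠ [] → Bd R (Θ l) (Θ l))
    (hst : ∀ l ∈ K, Θ l ⊆ K') (hself : ∀ l ∈ K, l ∈ Θ l)
    (hcomp : ∀ l ∈ K, ∀ m ∈ Γ l, Γ' m ⊆ Θ l) (h : Bd R L L') : Bd R K K' := by
  obtain ⟨α, a0, a1, a2⟩ := exists_chain_map hK Γ hm ha h0
  obtain ⟨β, b0, b1, b2⟩ := exists_chain_map hL' Γ' hm' ha' h0'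
  have aL : ∀ c ∈ C R K, α c ∈ C R L := map_mem _ fun l hl => C_mono (hs l hl) (a1 l hl)
  intro c hc hz
  obtain ⟨w, hw, e⟩ := h _ (aL c hc) (by rw [a2 c hc, hz, map_zero])
  obtain ⟨b, hb, e'⟩ := exists_bd_of_carrier hK Θ hmt hat hst (LinearMap.id - β.comp α)
    (fun l hl => by
      refine Submodule.sub_mem _ (single_mem (hself l hl) _) ?_
      exact map_mem β (fun m hm => C_mono (hcomp l hl m hm) (b1 m (hLL (hs l hl hm)))) _ (a1 l hl))
    (fun c hc => by
      simp only [LinearMap.sub_apply, LinearMap.id_apply, LinearMap.comp_apply, map_sub]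
      rw [b2 _ (C_mono hLL (aL c hc)), a2 c hc])
    (by simp [a0, b0]) c hc hz
  refine ⟨b + β w, Submodule.add_mem _ hb
    (map_mem _ (fun l hl => C_mono (hs' l hl) (b1 l hl)) w hw), ?_⟩
  rw [map_add, e', b2 w hw, e]
  simp

/-- chain map induced by a vertex map -/
noncomputable def push (f : V → W) : Ch R V →ₗ[R] Ch R W := Finsupp.lmapDomain R R (List.map f)

@[simp] theorem push_single (f : V → W) (l : List V) (r : R) :
    push f (single l r) = single (l.map f) r := by
  simp [push]

theorem push_cone (f : V → W) (a : V) (c : Ch R V) :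
    push f (cone R a c) = cone R (f a) (push f c) := by
  induction c using Finsupp.induction_linear with
  | zero => simp
  | add f g hf hg => simp [hf, hg]
  | single l r => simp

theorem push_bdL (f : V → W) (l : List V) : push f (bdL R l) = bdL R (l.map f) := by
  induction l with
  | nil => simp [bdL]
  | cons a l ih => simp [bdL, push_cone, ih]

theorem bd_push (f : V → W) (c : Ch R V) : bd R (push f c) = push f (bd R c) := by
  induction c using Finsupp.induction_linear with
  | zero => simp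
  | add f g hf hg => simp [hf, hg]
  | single l r => simp [push_bdL]

theorem push_mem {K : Set (List V)} {L : Set (List W)} (f : V → W) (h : ∀ l ∈ K, l.map f ∈ L) :
    ∀ c ∈ C R K, push f c ∈ C R L :=
  map_mem _ fun l hl => by rw [push_single]; exact single_mem (h l hl) _

theorem push_push {U : Type} (f : U → V) (g : V → W) (c : Ch R U) :
    push g (push f c) = push (g ∘ f) c := by
  induction c using Finsupp.induction_linear with
  | zero => simp
  | add f g hf hg => simp [hf, hg]
  | single l r => simp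

/-- all lists with entries in a set -/
def Full (S : Set V) : Set (List V) := {l | ∀ a ∈ l, a ∈ S}

theorem Full.bd {S : Set V} {a : V} (ha : a ∈ S) : Bd R (Full S) (Full S) :=
  bd_of_cone a fun l hl b hb => by
    rcases List.mem_cons.mp hb with rfl | hb
    exacts [ha, hl b hb]

theorem Full.mono {S T : Set V} (h : S ⊆ T) : Full S ⊆ Full T := fun _ hl a ha => h (hl a ha)

/-- contiguous vertex maps agree on cycles up to boundaries -/
theorem contiguous {K : Set (List V)} (hK : Down K) {L : Set (List W)} (f g : V → W)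
    (h : ∀ l ∈ K, Full {b | ∃ a ∈ l, b = f a ∨ b = g a} ⊆ L) :
    ∀ c ∈ C R K, bd R c = 0 → ∃ b ∈ C R L, bd R b = push f c - push g c := by
  refine exists_bd_of_carrier hK (fun l => Full {b | ∃ a ∈ l, b = f a ∨ b = g a}) ?_ ?_ h
    (push (R := R) f - push (R := R) g) ?_ ?_ (by simp)
  · intro l _ m hm
    exact Full.mono fun b ⟨a, ha, e⟩ => ⟨a, hm.subset ha, e⟩
  · intro l _ hl
    obtain ⟨a, ha⟩ := List.exists_mem_of_ne_nil l hl
    exact Full.bd (a := f a) ⟨a, ha, Or.inl rfl⟩
  · intro l _
    simp only [LinearMap.sub_apply, push_single]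
    refine Submodule.sub_mem _ (single_mem ?_ _) (single_mem ?_ _)
    · intro b hb
      obtain ⟨a, ha, rfl⟩ := List.mem_map.mp hb
      exact ⟨a, ha, Or.inl rfl⟩
    · intro b hb
      obtain ⟨a, ha, rfl⟩ := List.mem_map.mp hb
      exact ⟨a, ha, Or.inr rfl⟩
  · intro c _
    simp [bd_push]

/-- transfer along vertex maps with a left inverse -/
theorem Bd.of_maps {K K' : Set (List V)} {L L' : Set (List W)} (f : V → W) (g : W → V)
    (hf : ∀ l ∈ K, l.map f ∈ L) (hg : ∀ l ∈ L', l.map g ∈ K')
    (hgf : ∀ l ∈ K, ∀ a ∈ l, g (f a) = a) (h : Bd R L L') : Bd R K K' := by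
  intro c hc hz
  obtain ⟨b, hb, e⟩ := h _ (push_mem f hf c hc) (by rw [bd_push, hz, map_zero])
  refine ⟨push g b, push_mem g hg b hb, ?_⟩
  rw [bd_push, e, push_push]
  refine map_eq (push (g ∘ f)) LinearMap.id ?_ c hc
  intro l hl
  rw [push_single, LinearMap.id_apply]
  congr 1
  conv_rhs => rw [← List.map_id l]
  exact List.map_congr_left fun a ha => hgf l hl a ha

theorem mem_C_union {K L : Set (List V)} {c : Ch R V} (hc : c ∈ C R (K ∪ L)) :
    ∃ x ∈ C R K, ∃ y ∈ C R L, x + y = c := by
  rw [C, Finsupp.supported_union] at hc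
  exact Submodule.mem_sup.mp hc

theorem mem_C_inter {K L : Set (List V)} {c : Ch R V} (h1 : c ∈ C R K) (h2 : c ∈ C R L) :
    c ∈ C R (K ∩ L) := fun _ hl => ⟨h1 hl, h2 hl⟩

theorem mv_union {K L : Set (List V)} (hK : Down K) (hL : Down L) (h1 : Bd R K K) (h2 : Bd R L L)
    (h3 : Bd R (K ∩ L) (K ∩ L)) : Bd R (K ∪ L) (K ∪ L) := by
  intro c hc hz
  obtain ⟨x, hx, y, hy, rfl⟩ := mem_C_union hc
  rw [map_add] at hz
  have e : bd R x = - bd R y := eq_neg_of_add_eq_zero_left hz
  obtain ⟨z, hz1, ez⟩ := h3 (bd R x)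
    (mem_C_inter (hK.bd_mem x hx) (e ▸ Submodule.neg_mem _ (hL.bd_mem y hy))) (bd_bd x)
  obtain ⟨a, ha, ea⟩ := h1 (x - z)
    (Submodule.sub_mem _ hx (C_mono Set.inter_subset_left hz1)) (by rw [map_sub, ez, sub_self])
  obtain ⟨b, hb, eb⟩ := h2 (y + z)
    (Submodule.add_mem _ hy (C_mono Set.inter_subset_right hz1)) (by rw [map_add, ez, e]; simp)
  refine ⟨a + b, Submodule.add_mem _ (C_mono Set.subset_union_left ha)
    (C_mono Set.subset_union_right hb), ?_⟩
  rw [map_add, ea, eb]; abel

theorem mv_left {K L : Set (List V)} (hK : Down K) (hL : Down L)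
    (h3 : Bd R (K ∩ L) (K ∩ L)) (h : Bd R (K ∪ L) (K ∪ L)) : Bd R K K := by
  intro c hc hz
  obtain ⟨b, hb, e⟩ := h c (C_mono Set.subset_union_left hc) hz
  obtain ⟨x, hx, y, hy, rfl⟩ := mem_C_union hb
  rw [map_add] at e
  have e2 : bd R y = c - bd R x := by rw [← e]; abel
  obtain ⟨z, hz1, ez⟩ := h3 (bd R y)
    (mem_C_inter (e2 ▸ Submodule.sub_mem _ hc (hK.bd_mem x hx)) (hL.bd_mem y hy)) (bd_bd y)
  refine ⟨x + z, Submodule.add_mem _ hx (C_mono Set.inter_subset_left hz1), ?_⟩
  rw [map_add, ez, e]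

theorem mv_inter {K L : Set (List V)} (hK : Down K) (hL : Down L) (h1 : Bd R K K) (h2 : Bd R L L)
    (h : Bd R (K ∪ L) (K ∪ L)) : Bd R (K ∩ L) (K ∩ L) := by
  intro c hc hz
  obtain ⟨a, ha, ea⟩ := h1 c (C_mono Set.inter_subset_left hc) hz
  obtain ⟨b, hb, eb⟩ := h2 c (C_mono Set.inter_subset_right hc) hz
  obtain ⟨w, hw, e⟩ := h (a - b) (Submodule.sub_mem _ (C_mono Set.subset_union_left ha)
    (C_mono Set.subset_union_right hb)) (by rw [map_sub, ea, eb, sub_self])
  obtain ⟨x, hx, y, hy, rfl⟩ := mem_C_union hw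
  rw [map_add] at e
  have e2 : a - bd R x = b + bd R y := by rw [sub_eq_iff_eq_add, add_assoc, add_comm (bd R y), e]; abel
  refine ⟨a - bd R x, mem_C_inter (Submodule.sub_mem _ ha (hK.bd_mem x hx))
    (e2 ▸ Submodule.add_mem _ hb (hL.bd_mem y hy)), ?_⟩
  rw [map_sub, ea, bd_bd, sub_zero]

end Pool.Agent.Lib.RipsHom
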